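import Pool.Agent.Y285.SPr.Close

/-!
# Pressure rigidity fails in every `C^∞` neighbourhood of an Anosov automorphism

`f κ = A ∘ S κ`, `0 < κ ≤ 1`, with `A = [[10, 3], [3, 1]]` and `S κ` a composition of two shears of
amplitude proportional to `κ` which fixes the nine fixed points of `A`, and `g κ = J⁻¹ ∘ (f κ)⁻¹ ∘ J`
with `J` the rotation by a quarter turn. The maps `f κ` and `g κ` are homotopic and have the same
pressure function. A smooth conjugacy acts affinely on the nine fixed points and preserves the traces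
of the derivatives there; the part of the trace function which is even about the centre determines
`κ`, and no affine map matches the trace functions of `f κ` and `g κ`.
-/

set_option autoImplicit false

open Set Filter Topology MeasureTheory Function
open scoped ContDiff ENNReal

namespace Pool.Agent.Results.MP_480559_an.NearAutomorphism

open Pool.Agent.H165P Pool.Agent.Y285.SPr

/-- There are two families `f κ`, `g κ`, `0 < κ ≤ 1`, of `C^∞` area-preserving Anosov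
diffeomorphisms of the two-torus, with lifts `F κ`, `G κ` to the plane depending jointly smoothly on
`κ` and the point and converging as `κ → 0` to the linear automorphism `[[10, 3], [3, 1]]` uniformly
with all derivatives, such that `f κ` and `g κ` are homotopic and have identical pressure functions,
`f κ` is not `C^∞` conjugate to any `g κ'`, and not to `f κ'` for `κ' ≠ κ`. -/
theorem result :
    ∃ (f g : ℝ → Torus → Torus) (F G : ℝ → ℝ × ℝ → ℝ × ℝ)
      (Es Eu Es' Eu' : ℝ → Torus → Submodule ℝ (ℝ × ℝ)),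
      (∀ κ : ℝ, 0 < κ → κ ≤ 1 →
        IsAnosov (f κ) (F κ) (Es κ) (Eu κ) ∧ IsAnosov (g κ) (G κ) (Es' κ) (Eu' κ) ∧
        MeasurePreserving (f κ) (volume : Measure Torus) volume ∧
        MeasurePreserving (g κ) (volume : Measure Torus) volume ∧
        AreHomotopic (f κ) (g κ) ∧
        (∀ t : ℝ, pressure (f κ) (F κ) (Eu κ) t = pressure (g κ) (G κ) (Eu' κ) t) ∧
        ∀ κ' : ℝ, 0 < κ' → κ' ≤ 1 →
          ¬ AreSmoothlyConjugate (f κ) (g κ') ∧ (κ' ≠ κ → ¬ AreSmoothlyConjugate (f κ) (f κ'))) ∧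
      ContDiff ℝ ∞ (fun q : ℝ × (ℝ × ℝ) => F q.1 q.2) ∧
      ContDiff ℝ ∞ (fun q : ℝ × (ℝ × ℝ) => G q.1 q.2) ∧
      (∀ z, F 0 z = (10 * z.1 + 3 * z.2, 3 * z.1 + z.2)) ∧
      (∀ z, G 0 z = (10 * z.1 + 3 * z.2, 3 * z.1 + z.2)) ∧
      ∀ (K : ℕ) (ε : ℝ), 0 < ε → ∃ δ : ℝ, 0 < δ ∧ ∀ κ : ℝ, 0 < κ → κ < δ → ∀ k ≤ K, ∀ z,
        ‖iteratedFDeriv ℝ k (fun z => F κ z - (10 * z.1 + 3 * z.2, 3 * z.1 + z.2)) z‖ < ε ∧
        ‖iteratedFDeriv ℝ k (fun z => G κ z - (10 * z.1 + 3 * z.2, 3 * z.1 + z.2)) z‖ < ε := by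
  have h : ∀ κ : ℝ, ∃ (Es Eu Es' Eu' : Torus → Submodule ℝ (ℝ × ℝ)), 0 < κ → κ ≤ 1 →
      IsAnosov (dsc (Fk κ)) (Fk κ) Es Eu ∧ IsAnosov (dsc (Gk κ)) (Gk κ) Es' Eu' ∧
      MeasurePreserving (dsc (Fk κ)) (volume : Measure Torus) volume ∧
      MeasurePreserving (dsc (Gk κ)) (volume : Measure Torus) volume ∧
      AreHomotopic (dsc (Fk κ)) (dsc (Gk κ)) ∧
      ∀ t : ℝ, pressure (dsc (Fk κ)) (Fk κ) Eu t = pressure (dsc (Gk κ)) (Gk κ) Eu' t := by
    intro κ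
    by_cases hκ : 0 < κ ∧ κ ≤ 1
    · obtain ⟨a, b, c, d, hh⟩ := pair hκ.1 hκ.2
      exact ⟨a, b, c, d, fun _ _ => hh⟩
    · exact ⟨fun _ => ⊥, fun _ => ⊥, fun _ => ⊥, fun _ => ⊥, fun h1 h2 => absurd ⟨h1, h2⟩ hκ⟩
  choose Es Eu Es' Eu' hE using h
  refine ⟨fun κ => dsc (Fk κ), fun κ => dsc (Gk κ), Fk, Gk, Es, Eu, Es', Eu', ?_, Fk_contDiff,
    Gk_contDiff, Fk_zero, Gk_zero, ?_⟩
  · intro κ h0 h1
    obtain ⟨e1, e2, e3, e4, e5, e6⟩ := hE κ h0 h1
    exact ⟨e1, e2, e3, e4, e5, e6, fun κ' h0' h1' => ⟨not_conj_FG h0 h1 h0' h1',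
      fun hne hc => hne (not_conj_FF h0 h1 h0' h1' hc).symm⟩⟩
  · intro K ε hε
    obtain ⟨δ₁, h1, h2⟩ := close_F K hε
    obtain ⟨δ₂, h3, h4⟩ := close_G K hε
    exact ⟨min δ₁ δ₂, lt_min h1 h3, fun κ hκ hκ2 k hk z =>
      ⟨h2 κ hκ (hκ2.trans_le (min_le_left _ _)) k hk z,
        h4 κ hκ (hκ2.trans_le (min_le_right _ _)) k hk z⟩⟩

end Pool.Agent.Results.MP_480559_an.NearAutomorphism
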